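import Pool.Agent.H91.SV.Targets
import Pool.Agent.H49.SDP.Mat

/-! # Mixed linear and semidefinite programs: the abstract counting argument (row ABS3)

The first theorem is adapted from `Pool.Agent.H33.AV.aa_gen` (helper33).
-/

set_option autoImplicit false

namespace Pool.Agent.H21.SV

open Finset Pool.Agent.H91.AV

open Classical in
theorem ab_gen (hFam : S_FAM) (X Y C : Type) [Fintype X] [Fintype Y] [Fintype C] (K : Y → X → ℝ)
    (ka Mx : ℝ) (r : ℕ) (inF : Y → C → Prop) (sat : C → X → Prop) (hr : 1 ≤ r)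
    (hka : 0 ≤ ka) (hMx : 1 ≤ Mx) (hKM : ∀ a x, |K a x| ≤ Mx) (hK : ∀ a, ∑ x, K a x = Fintype.card X)
    (hT1 : ∀ g : X → ℝ, (∀ x, 0 ≤ g x) → ∃ T : Y → ℝ, (∀ a, 0 ≤ T a) ∧
      (∀ a, -(T a) ≤ ∑ x, g x * K a x) ∧ ∑ a, T a ^ (2 * r) ≤ ka * (∑ x, g x ^ 2) ^ r)
    (hT2 : ∀ (c : C) (g : X → ℝ), (∀ x, 0 ≤ g x) → (∀ x, g x ≠ 0 → ¬ sat c x) → ∃ T : Y → ℝ,
      (∀ a, 0 ≤ T a) ∧ (∀ a, inF a c → |∑ x, g x * K a x| ≤ T a) ∧
      ∑ a, T a ^ (2 * r) ≤ ka * (∑ x, g x ^ 2) ^ r)
    (M : ℕ) (A : Finset Y) (J : Y → Finset (Fin M)) (cell : Fin M → Set X)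
    (β : Fin M → Type) [∀ j, Fintype (β j)] (hβ : ∀ j, 1 ≤ Fintype.card (β j))
    (sl : (j : Fin M) → β j → X → ℝ) (lam : Y → (j : Fin M) → β j → ℝ)
    (tr : Y → Fin M → X → ℝ)
    (ls : Fin M → C → X → ℝ) (de d' S : ℝ) (F : Y → Finset C)
    (hde : 0 < de) (hd' : 0 ≤ d') (hS : 0 ≤ S) (hF : ∀ a c, c ∈ F a ↔ inF a c)
    (hcov : ∀ a ∈ A, ∀ x, ∃ j ∈ J a, x ∈ cell j)
    (hdis : ∀ a ∈ A, ∀ j ∈ J a, ∀ j' ∈ J a, j ≠ j' → Disjoint (cell j) (cell j'))
    (hsl : ∀ j i, ∀ x ∈ cell j, 0 ≤ sl j i x) (hlam : ∀ a j i, 0 ≤ lam a j i)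
    (hls1 : ∀ j c, ∀ x ∈ cell j, |ls j c x| ≤ 1)
    (hls0 : ∀ j c, ∀ x ∈ cell j, sat c x → ls j c x ≤ 0)
    (htr : ∀ a ∈ A, ∀ j ∈ J a, ∀ x ∈ cell j, 0 ≤ tr a j x)
    (heq : ∀ a ∈ A, ∀ j ∈ J a, ∀ x ∈ cell j,
        |∑ c ∈ F a, ls j c x - de - (∑ i, lam a j i * sl j i x + tr a j x)| ≤ de / (4 * Mx))
    (hP : d' * (A.card * Fintype.card X) ≤ 3 / 4 * de * (A.card * Fintype.card X) +
      ∑ a ∈ A, ∑ x, ∑ j ∈ J a, (if x ∈ cell j then tr a j x else 0) * K a x)
    (hSz : ∀ a ∈ A, ∑ j ∈ J a, (Fintype.card (β j) : ℝ) ≤ S) :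
    d' ^ (2 * r) * A.card * (Fintype.card X : ℝ) ^ r ≤
      4 * (Fintype.card C : ℝ) ^ 2 * ka * (∑ j, (Fintype.card (β j) : ℝ)) *
        (24 * (Fintype.card C : ℝ) ^ 2 * S) ^ r := by
  have hη : de / (4 * Mx) ≤ de / 4 := by
    apply div_le_div_of_nonneg_left hde.le (by norm_num)
    linarith
  have hη0 : 0 ≤ de / (4 * Mx) := by positivity
  have hηM : de / (4 * Mx) * Mx = de / 4 := by
    field_simp
  rcases A.eq_empty_or_nonempty with hA | ⟨a0, ha0⟩
  · have : ((A.card : ℕ) : ℝ) = 0 := by rw [hA]; simp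
    rw [this, mul_zero, zero_mul]
    positivity
  rcases isEmpty_or_nonempty X with hX | hX
  · have : ((Fintype.card X : ℕ) : ℝ) = 0 := by simp
    rw [this, zero_pow (by omega), mul_zero]
    positivity
  obtain ⟨x0⟩ := hX
  obtain ⟨j0, hj0, hx0⟩ := hcov a0 ha0 x0
  obtain ⟨m0, hm0⟩ : ∃ m0 : ℝ, m0 = Fintype.card C := ⟨_, rfl⟩
  obtain ⟨W0, hW0⟩ : ∃ W0 : ℝ, W0 = ∑ j, (Fintype.card (β j) : ℝ) := ⟨_, rfl⟩
  rw [← hm0, ← hW0]
  have hβr : ∀ j, (1 : ℝ) ≤ Fintype.card (β j) := fun j => by exact_mod_cast hβ j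
  have hm1 : 1 ≤ m0 := by
    have h1 : Fintype.card C ≠ 0 := by
      intro h0
      have hE : IsEmpty C := Fintype.card_eq_zero_iff.1 h0
      have h2 : F a0 = ∅ := Finset.eq_empty_of_isEmpty _
      have h3 := heq a0 ha0 j0 hj0 x0 hx0
      rw [h2, Finset.sum_empty] at h3
      have h4 : 0 ≤ ∑ i, lam a0 j0 i * sl j0 i x0 :=
        Finset.sum_nonneg fun i _ => mul_nonneg (hlam _ _ _) (hsl _ _ _ hx0)
      have h5 := (abs_le.1 h3).1
      have h6 := htr a0 ha0 j0 hj0 x0 hx0
      linarith
    rw [hm0]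
    exact_mod_cast Nat.one_le_iff_ne_zero.2 h1
  have hS1 : 1 ≤ S := by
    refine le_trans ?_ (hSz a0 ha0)
    refine le_trans (hβr j0) ?_
    exact Finset.single_le_sum (f := fun j => (Fintype.card (β j) : ℝ))
      (fun j _ => by positivity) hj0
  have hMW : (M : ℝ) ≤ W0 := by
    calc (M : ℝ) = ∑ j : Fin M, (1 : ℝ) := by simp
      _ ≤ W0 := by rw [hW0]; exact Finset.sum_le_sum fun j _ => hβr j
  have hM1 : (1 : ℝ) ≤ M := by
    have : 0 < M := Fin.pos j0
    exact_mod_cast this
  have hW1 : 1 ≤ W0 := hM1.trans hMW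
  -- indicators
  set ind : Fin M → X → ℝ := fun j x => if x ∈ cell j then 1 else 0 with hind
  set sel : Y → Fin M → ℝ := fun a j => if a ∈ A ∧ j ∈ J a then 1 else 0 with hsel
  set inn : Y → C → ℝ := fun a c => if inF a c then 1 else 0 with hinn
  have ind0 : ∀ j x, 0 ≤ ind j x := fun j x => by
    simp only [hind]; split_ifs <;> norm_num
  have ind1 : ∀ j x, ind j x ≤ 1 := fun j x => by
    simp only [hind]; split_ifs <;> norm_num
  have sel0 : ∀ a j, 0 ≤ sel a j := fun a j => by
    simp only [hsel]; split_ifs <;> norm_num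
  have sel1 : ∀ a j, sel a j ≤ 1 := fun a j => by
    simp only [hsel]; split_ifs <;> norm_num
  have inn0 : ∀ a c, 0 ≤ inn a c := fun a c => by
    simp only [hinn]; split_ifs <;> norm_num
  have inn1 : ∀ a c, inn a c ≤ 1 := fun a c => by
    simp only [hinn]; split_ifs <;> norm_num
  have selA : ∀ a j, a ∉ A → sel a j = 0 := fun a j ha => by
    simp only [hsel]; rw [if_neg (fun h => ha h.1)]
  -- the partition
  have hE1 : ∀ a x, ∑ j, sel a j * ind j x = if a ∈ A then 1 else 0 := by
    intro a x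
    by_cases ha : a ∈ A
    · obtain ⟨j0, hj0, hx0⟩ := hcov a ha x
      rw [if_pos ha, Finset.sum_eq_single j0]
      · simp only [hsel, hind]
        rw [if_pos ⟨ha, hj0⟩, if_pos hx0, one_mul]
      · intro j _ hj
        simp only [hsel, hind]
        by_cases hjJ : j ∈ J a
        · have hd := hdis a ha j hjJ j0 hj0 hj
          have hx : x ∉ cell j := fun hx => Set.disjoint_left.1 hd hx hx0
          rw [if_neg hx, mul_zero]
        · rw [if_neg (fun h => hjJ h.2), zero_mul]
      · intro h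
        exact absurd (Finset.mem_univ _) h
    · rw [if_neg ha]
      exact Finset.sum_eq_zero fun j _ => by rw [selA a j ha, zero_mul]
  have hE1le : ∀ a x, ∑ j, sel a j * ind j x ≤ 1 := by
    intro a x
    rw [hE1]
    split_ifs <;> norm_num
  have hselS : ∀ a, ∑ j, sel a j * (Fintype.card (β j) : ℝ) ≤ S := by
    intro a
    by_cases ha : a ∈ A
    · calc ∑ j, sel a j * (Fintype.card (β j) : ℝ)
          = ∑ j ∈ J a, (Fintype.card (β j) : ℝ) := by
            rw [← Finset.sum_filter_add_sum_filter_not univ (fun j => j ∈ J a)]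
            have h1 : ∑ j ∈ univ.filter (fun j => ¬ j ∈ J a),
                sel a j * (Fintype.card (β j) : ℝ) = 0 := by
              refine Finset.sum_eq_zero fun j hj => ?_
              have : sel a j = 0 := by
                simp only [hsel]
                rw [if_neg (fun h => (Finset.mem_filter.1 hj).2 h.2)]
              rw [this, zero_mul]
            rw [h1, add_zero]
            have h2 : univ.filter (fun j => j ∈ J a) = J a := by ext j; simp
            rw [h2]
            refine Finset.sum_congr rfl fun j hj => ?_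
            have : sel a j = 1 := by
              simp only [hsel]
              rw [if_pos ⟨ha, hj⟩]
            rw [this, one_mul]
        _ ≤ S := hSz a ha
    · have h1 : ∑ j, sel a j * (Fintype.card (β j) : ℝ) = 0 :=
        Finset.sum_eq_zero fun j _ => by rw [selA a j ha, zero_mul]
      rw [h1]
      exact hS
  have hFs : ∀ a j x, ∑ c ∈ F a, ls j c x = ∑ c, inn a c * ls j c x := by
    intro a j x
    have h1 : F a = univ.filter (fun c => inF a c) := by
      ext c
      simp [hF a c]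
    rw [h1, Finset.sum_filter]
    refine Finset.sum_congr rfl fun c _ => ?_
    simp only [hinn]
    split_ifs <;> simp
  have hinnC : ∀ a, ∑ c, inn a c ≤ m0 := by
    intro a
    calc ∑ c, inn a c ≤ ∑ c : C, (1 : ℝ) := Finset.sum_le_sum fun c _ => inn1 a c
      _ = m0 := by rw [hm0]; simp
  obtain ⟨er, her⟩ : ∃ er : Y → Fin M → X → ℝ, ∀ a j x, er a j x =
    ∑ c ∈ F a, ls j c x - de - (∑ o, lam a j o * sl j o x + tr a j x) := ⟨_, fun _ _ _ => rfl⟩
  have hE2 : ∀ a j x, sel a j * ind j x * de =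
      ∑ c, sel a j * inn a c * (ind j x * ls j c x) -
        ∑ o, sel a j * lam a j o * (ind j x * sl j o x) -
        sel a j * ind j x * (tr a j x + er a j x) := by
    intro a j x
    have h1 : ∑ c, sel a j * inn a c * (ind j x * ls j c x) =
        sel a j * ind j x * ∑ c ∈ F a, ls j c x := by
      rw [hFs, Finset.mul_sum]
      exact Finset.sum_congr rfl fun c _ => by ring
    have h2 : ∑ o, sel a j * lam a j o * (ind j x * sl j o x) =
        sel a j * ind j x * ∑ o, lam a j o * sl j o x := by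
      rw [Finset.mul_sum]
      exact Finset.sum_congr rfl fun c _ => by ring
    rw [h1, h2, her]
    ring
  have hsum : ∀ a j x, ∑ o, sel a j * lam a j o * (ind j x * sl j o x) ≤
      sel a j * ind j x * m0 := by
    intro a j x
    by_cases hs : a ∈ A ∧ j ∈ J a
    · by_cases hx : x ∈ cell j
      · have h1 : sel a j = 1 := by simp only [hsel]; rw [if_pos hs]
        have h2 : ind j x = 1 := by simp only [hind]; rw [if_pos hx]
        have h3 : ∑ o, sel a j * lam a j o * (ind j x * sl j o x) =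
            ∑ o, lam a j o * sl j o x :=
          Finset.sum_congr rfl fun o _ => by rw [h1, h2]; ring
        rw [h3, h1, h2]
        have h5 := (abs_le.1 (heq a hs.1 j hs.2 x hx)).1
        have h6 := htr a hs.1 j hs.2 x hx
        have h4 : ∑ c ∈ F a, ls j c x ≤ m0 := by
          calc ∑ c ∈ F a, ls j c x ≤ ∑ c ∈ F a, (1 : ℝ) :=
                Finset.sum_le_sum fun c _ => (le_abs_self _).trans (hls1 j c x hx)
            _ = (F a).card := by simp
            _ ≤ m0 := by rw [hm0]; exact_mod_cast Finset.card_le_univ _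
        linarith
      · have h2 : ind j x = 0 := by simp only [hind]; rw [if_neg hx]
        rw [h2]
        simp
    · have h1 : sel a j = 0 := by simp only [hsel]; rw [if_neg hs]
      rw [h1]
      simp
  have indsl : ∀ j o x, 0 ≤ ind j x * sl j o x := by
    intro j o x
    by_cases hx : x ∈ cell j
    · exact mul_nonneg (ind0 j x) (hsl j o x hx)
    · have h2 : ind j x = 0 := by simp only [hind]; rw [if_neg hx]
      rw [h2, zero_mul]
  have sellam : ∀ a j o, 0 ≤ sel a j * lam a j o := fun a j o =>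
    mul_nonneg (sel0 a j) (hlam a j o)
  have hone : ∀ a j o x, sel a j * lam a j o * (ind j x * sl j o x) ≤ sel a j * m0 := by
    intro a j o x
    have h1 : sel a j * lam a j o * (ind j x * sl j o x) ≤
        ∑ o, sel a j * lam a j o * (ind j x * sl j o x) :=
      Finset.single_le_sum (f := fun o => sel a j * lam a j o * (ind j x * sl j o x))
        (fun o _ => mul_nonneg (sellam a j o) (indsl j o x)) (Finset.mem_univ o)
    have h2 : sel a j * ind j x * m0 ≤ sel a j * 1 * m0 := by
      refine mul_le_mul_of_nonneg_right ?_ (by linarith)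
      exact mul_le_mul_of_nonneg_left (ind1 j x) (sel0 a j)
    have := hsum a j x
    linarith
  -- slack terms
  set g0 : (Σ j, β j) → X → ℝ := fun p x => ind p.1 x * sl p.1 p.2 x with hg0
  have g00 : ∀ p x, 0 ≤ g0 p x := fun p x => indsl p.1 p.2 x
  have hmax : ∀ p, ∃ xs, ∀ x, g0 p x ≤ g0 p xs := fun p => by
    have : Nonempty X := ⟨x0⟩
    exact Finite.exists_max (g0 p)
  choose xs hxs using hmax
  set gs : (Σ j, β j) → X → ℝ := fun p x => g0 p x / g0 p (xs p) with hgs
  set fs : (Σ j, β j) → Y → ℝ := fun p a => sel a p.1 * lam a p.1 p.2 * g0 p (xs p) with hfs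
  have gs0 : ∀ p x, 0 ≤ gs p x := fun p x => div_nonneg (g00 p x) (g00 p _)
  have gs1 : ∀ p x, gs p x ≤ 1 := fun p x => div_le_one_of_le₀ (hxs p x) (g00 p _)
  have fs0 : ∀ p a, 0 ≤ fs p a := fun p a => mul_nonneg (sellam a _ _) (g00 p _)
  have fs1 : ∀ p a, fs p a ≤ sel a p.1 * m0 := fun p a => hone a p.1 p.2 (xs p)
  have hfg : ∀ p a x, fs p a * gs p x = sel a p.1 * lam a p.1 p.2 * g0 p x := by
    intro p a x
    show sel a p.1 * lam a p.1 p.2 * g0 p (xs p) * (g0 p x / g0 p (xs p)) = _
    rcases eq_or_ne (g0 p (xs p)) 0 with h | h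
    · have h1 : g0 p x = 0 := le_antisymm (h ▸ hxs p x) (g00 p x)
      rw [h1, h]
      simp
    · field_simp
  -- clause terms
  set f3 : (Fin M × C) → Y → ℝ := fun q a => sel a q.1 * inn a q.2 with hf3
  set g1 : (Fin M × C) → X → ℝ := fun q x =>
    if x ∈ cell q.1 ∧ sat q.2 x then -ls q.1 q.2 x else 0 with hg1
  set g2 : (Fin M × C) → X → ℝ := fun q x =>
    if x ∈ cell q.1 ∧ ¬ sat q.2 x then max (ls q.1 q.2 x) 0 else 0 with hg2
  set g3 : (Fin M × C) → X → ℝ := fun q x =>
    if x ∈ cell q.1 ∧ ¬ sat q.2 x then max (-ls q.1 q.2 x) 0 else 0 with hg3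
  have f30 : ∀ q a, 0 ≤ f3 q a := fun q a => mul_nonneg (sel0 _ _) (inn0 _ _)
  have f31 : ∀ q a, f3 q a ≤ 1 := fun q a => by
    calc sel a q.1 * inn a q.2 ≤ 1 * 1 :=
          mul_le_mul (sel1 _ _) (inn1 _ _) (inn0 _ _) zero_le_one
      _ = 1 := one_mul 1
  have g1p : ∀ q x, 0 ≤ g1 q x := by
    intro q x
    simp only [hg1]
    by_cases hx : x ∈ cell q.1 ∧ sat q.2 x
    · rw [if_pos hx]
      have := hls0 q.1 q.2 x hx.1 hx.2
      linarith
    · rw [if_neg hx]
  have g2p : ∀ q x, 0 ≤ g2 q x := by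
    intro q x
    simp only [hg2]
    split_ifs
    · exact le_max_right _ _
    · exact le_rfl
  have g3p : ∀ q x, 0 ≤ g3 q x := by
    intro q x
    simp only [hg3]
    split_ifs
    · exact le_max_right _ _
    · exact le_rfl
  have gsum : ∀ q x, g1 q x + g2 q x + g3 q x ≤ ind q.1 x := by
    intro q x
    simp only [hg1, hg2, hg3, hind]
    by_cases hx : x ∈ cell q.1
    · have h1 := abs_le.1 (hls1 q.1 q.2 x hx)
      by_cases hs : sat q.2 x
      · simp only [hx, hs, true_and, if_true, not_true_eq_false, if_false]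
        linarith
      · simp only [hx, hs, true_and, if_true, not_false_eq_true, if_false]
        rcases le_total 0 (ls q.1 q.2 x) with h | h
        · rw [max_eq_left h, max_eq_right (by linarith)]; linarith
        · rw [max_eq_right h, max_eq_left (by linarith)]; linarith
    · simp [hx]
  have g1le : ∀ q x, g1 q x ≤ 1 := fun q x => by
    have := gsum q x; have := g2p q x; have := g3p q x; have := ind1 q.1 x; linarith
  have g2le : ∀ q x, g2 q x ≤ 1 := fun q x => by
    have := gsum q x; have := g1p q x; have := g3p q x; have := ind1 q.1 x; linarith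
  have g3le : ∀ q x, g3 q x ≤ 1 := fun q x => by
    have := gsum q x; have := g2p q x; have := g1p q x; have := ind1 q.1 x; linarith
  have gid : ∀ q x, ind q.1 x * ls q.1 q.2 x = -g1 q x + g2 q x - g3 q x := by
    intro q x
    simp only [hind, hg1, hg2, hg3]
    by_cases hx : x ∈ cell q.1
    · by_cases hs : sat q.2 x
      · simp [hx, hs]
      · simp only [hx, hs, true_and, if_true, not_false_eq_true, if_false]
        rcases le_total 0 (ls q.1 q.2 x) with h | h
        · rw [max_eq_left h, max_eq_right (by linarith)]; ring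
        · rw [max_eq_right h, max_eq_left (by linarith)]; ring
    · simp [hx]
  have hTs := fun p => hT1 (gs p) (gs0 p)
  choose Ts Ts0 Ts1 Ts2 using hTs
  have hTa := fun q => hT1 (g1 q) (g1p q)
  choose Ta Ta0 Ta1 Ta2 using hTa
  have hTb := fun q => hT2 q.2 (g2 q) (g2p q) (by
      intro x hx
      by_contra hc
      apply hx
      simp only [hg2]
      rw [if_neg (fun h => h.2 hc)])
  choose Tb Tb0 Tb1 Tb2 using hTb
  have hTc := fun q => hT2 q.2 (g3 q) (g3p q) (by
      intro x hx
      by_contra hc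
      apply hx
      simp only [hg3]
      rw [if_neg (fun h => h.2 hc)])
  choose Tc Tc0 Tc1 Tc2 using hTc
  -- the inequality for each formula
  have hkey : ∀ a, (if a ∈ A then (1 : ℝ) else 0) * (3 / 4 * de * Fintype.card X) +
      ∑ x, ∑ j, sel a j * ind j x * tr a j x * K a x ≤
      ∑ p, fs p a * Ts p a + (∑ q, f3 q a * Ta q a + (∑ q, f3 q a * Tb q a +
        ∑ q, f3 q a * Tc q a)) := by
    intro a
    have herr1 : ∀ x, -((if a ∈ A then (1 : ℝ) else 0) * (de / 4)) ≤
        ∑ j, sel a j * ind j x * er a j x * K a x := by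
      intro x
      rw [← hE1 a x, Finset.sum_mul, ← Finset.sum_neg_distrib]
      refine Finset.sum_le_sum fun j _ => ?_
      by_cases hs : a ∈ A ∧ j ∈ J a
      · by_cases hx : x ∈ cell j
        · have h1 : sel a j = 1 := by simp only [hsel]; rw [if_pos hs]
          have h2 : ind j x = 1 := by simp only [hind]; rw [if_pos hx]
          have h5 : |er a j x * K a x| ≤ de / 4 := by
            rw [abs_mul, ← hηM]
            refine mul_le_mul ?_ (hKM a x) (abs_nonneg _) hη0
            rw [her]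
            exact heq a hs.1 j hs.2 x hx
          have h6 := (abs_le.1 h5).1
          rw [h1, h2]
          linarith
        · have h2 : ind j x = 0 := by simp only [hind]; rw [if_neg hx]
          rw [h2]
          simp
      · have h1 : sel a j = 0 := by simp only [hsel]; rw [if_neg hs]
        rw [h1]
        simp
    have herr : -((if a ∈ A then (1 : ℝ) else 0) * (de / 4)) * Fintype.card X ≤
        ∑ x, ∑ j, sel a j * ind j x * er a j x * K a x := by
      refine le_trans (le_of_eq ?_) (Finset.sum_le_sum fun x _ => herr1 x)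
      rw [Finset.sum_const, Finset.card_univ, nsmul_eq_mul]
      ring
    have h2 : ∀ x, (if a ∈ A then (1 : ℝ) else 0) * (de * K a x) +
        ∑ j, sel a j * ind j x * tr a j x * K a x +
        ∑ j, sel a j * ind j x * er a j x * K a x =
        ∑ q, f3 q a * (ind q.1 x * ls q.1 q.2 x * K a x) -
          ∑ p, fs p a * (gs p x * K a x) := by
      intro x
      rw [Fintype.sum_prod_type, Fintype.sum_sigma, ← Finset.sum_sub_distrib, ← hE1 a x,
        Finset.sum_mul, ← Finset.sum_add_distrib, ← Finset.sum_add_distrib]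
      refine Finset.sum_congr rfl fun j _ => ?_
      have e1 : ∑ o, fs ⟨j, o⟩ a * (gs ⟨j, o⟩ x * K a x) =
          (∑ o, sel a j * lam a j o * (ind j x * sl j o x)) * K a x := by
        rw [Finset.sum_mul]
        refine Finset.sum_congr rfl fun o _ => ?_
        rw [← mul_assoc, hfg]
      have e2 : ∑ c, f3 (j, c) a * (ind j x * ls j c x * K a x) =
          (∑ c, sel a j * inn a c * (ind j x * ls j c x)) * K a x := by
        rw [Finset.sum_mul]
        refine Finset.sum_congr rfl fun o _ => ?_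
        show sel a j * inn a o * (ind j x * ls j o x * K a x) = _
        ring
      have e3 : sel a j * ind j x * (de * K a x) = (sel a j * ind j x * de) * K a x := by ring
      rw [e3, hE2 a j x]
      show _ = (∑ c, f3 (j, c) a * (ind j x * ls j c x * K a x)) -
        ∑ o, fs ⟨j, o⟩ a * (gs ⟨j, o⟩ x * K a x)
      rw [e1, e2]
      ring
    have h3 : (if a ∈ A then (1 : ℝ) else 0) * (de * Fintype.card X) +
        ∑ x, ∑ j, sel a j * ind j x * tr a j x * K a x +
        ∑ x, ∑ j, sel a j * ind j x * er a j x * K a x =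
        ∑ q, f3 q a * (∑ x, ind q.1 x * ls q.1 q.2 x * K a x) -
          ∑ p, fs p a * (∑ x, gs p x * K a x) := by
      rw [← hK a, Finset.mul_sum, Finset.mul_sum, ← Finset.sum_add_distrib,
        ← Finset.sum_add_distrib, Finset.sum_congr rfl fun x _ => h2 x,
        Finset.sum_sub_distrib, Finset.sum_comm,
        Finset.sum_comm (f := fun x p => fs p a * (gs p x * K a x))]
      congr 1
      · exact Finset.sum_congr rfl fun q _ => (Finset.mul_sum _ _ _).symm
      · exact Finset.sum_congr rfl fun q _ => (Finset.mul_sum _ _ _).symm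
    have h4 : ∀ q, f3 q a * (∑ x, ind q.1 x * ls q.1 q.2 x * K a x) ≤
        f3 q a * Ta q a + (f3 q a * Tb q a + f3 q a * Tc q a) := by
      intro q
      by_cases hi : inF a q.2
      · have e1 : ∑ x, ind q.1 x * ls q.1 q.2 x * K a x =
            -(∑ x, g1 q x * K a x) + (∑ x, g2 q x * K a x) - ∑ x, g3 q x * K a x := by
          rw [← Finset.sum_neg_distrib, ← Finset.sum_add_distrib, ← Finset.sum_sub_distrib]
          refine Finset.sum_congr rfl fun x _ => ?_
          rw [gid]
          ring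
        have e2 := Ta1 q a
        have e3 := (abs_le.1 (Tb1 q a hi)).2
        have e4 := (abs_le.1 (Tc1 q a hi)).1
        rw [← mul_add, ← mul_add]
        refine mul_le_mul_of_nonneg_left ?_ (f30 q a)
        rw [e1]
        linarith
      · have : f3 q a = 0 := by
          show sel a q.1 * inn a q.2 = 0
          simp only [hinn]
          rw [if_neg hi, mul_zero]
        rw [this]
        simp
    have h5 : ∀ p, -(fs p a * (∑ x, gs p x * K a x)) ≤ fs p a * Ts p a := by
      intro p
      have := mul_le_mul_of_nonneg_left (Ts1 p a) (fs0 p a)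
      linarith
    have h6 := Finset.sum_le_sum (s := univ) fun q _ => h4 q
    have h7 := Finset.sum_le_sum (s := univ) fun p _ => h5 p
    rw [Finset.sum_add_distrib, Finset.sum_add_distrib] at h6
    rw [Finset.sum_neg_distrib] at h7
    linarith
  -- the family
  have htot : d' * (A.card * Fintype.card X) ≤
      ∑ i : ((Σ j, β j) ⊕ ((Fin M × C) ⊕ ((Fin M × C) ⊕ (Fin M × C)))), ∑ a,
        (Sum.elim fs (Sum.elim f3 (Sum.elim f3 f3)) : _ → Y → ℝ) i a *
          (Sum.elim Ts (Sum.elim Ta (Sum.elim Tb Tc)) : _ → Y → ℝ) i a := by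
    rw [Finset.sum_comm]
    have h1 : 3 / 4 * de * (A.card * Fintype.card X) +
        ∑ a ∈ A, ∑ x, ∑ j ∈ J a, (if x ∈ cell j then tr a j x else 0) * K a x =
        ∑ a : Y, ((if a ∈ A then (1 : ℝ) else 0) * (3 / 4 * de * Fintype.card X) +
          ∑ x, ∑ j, sel a j * ind j x * tr a j x * K a x) := by
      rw [Finset.sum_add_distrib, ← Finset.sum_mul]
      have h2 : ∑ a : Y, (if a ∈ A then (1 : ℝ) else 0) = A.card := by simp
      rw [h2]
      congr 1
      · ring
      · rw [← Finset.sum_subset (Finset.subset_univ A)]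
        · refine Finset.sum_congr rfl fun a ha => Finset.sum_congr rfl fun x _ => ?_
          rw [← Finset.sum_subset (Finset.subset_univ (J a))]
          · refine Finset.sum_congr rfl fun j hj => ?_
            have e1 : sel a j = 1 := by simp only [hsel]; rw [if_pos ⟨ha, hj⟩]
            rw [e1]
            simp only [hind]
            split_ifs <;> ring
          · intro j _ hj
            have e1 : sel a j = 0 := by simp only [hsel]; rw [if_neg (fun h => hj h.2)]
            rw [e1]
            ring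
        · intro a _ ha
          refine Finset.sum_eq_zero fun x _ => Finset.sum_eq_zero fun j _ => ?_
          rw [selA a j ha]
          ring
    refine hP.trans ?_
    rw [h1]
    refine Finset.sum_le_sum fun a _ => ?_
    rw [Fintype.sum_sum_type, Fintype.sum_sum_type, Fintype.sum_sum_type]
    exact hkey a
  have hWt : (Fintype.card ((Σ j, β j) ⊕ ((Fin M × C) ⊕ ((Fin M × C) ⊕ (Fin M × C)))) : ℝ) ≤
      4 * m0 * W0 := by
    rw [Fintype.card_sum, Fintype.card_sum, Fintype.card_sum, Fintype.card_sigma,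
      Fintype.card_prod, Fintype.card_fin]
    push_cast
    rw [← hm0, ← hW0]
    have e1 : (M : ℝ) * m0 ≤ W0 * m0 := mul_le_mul_of_nonneg_right hMW (by linarith)
    have e2 : W0 * 1 ≤ W0 * m0 := mul_le_mul_of_nonneg_left hm1 (by linarith)
    linarith
  have hf3sum : ∀ a, ∑ q, f3 q a ≤ m0 * S := by
    intro a
    have h1 : ∑ q, f3 q a = (∑ j, sel a j) * ∑ c, inn a c := by
      rw [Fintype.sum_prod_type, Finset.sum_mul_sum]
    have h2 : ∑ j, sel a j ≤ S := by
      refine le_trans (Finset.sum_le_sum fun j _ => ?_) (hselS a)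
      calc sel a j = sel a j * 1 := (mul_one _).symm
        _ ≤ sel a j * (Fintype.card (β j) : ℝ) := mul_le_mul_of_nonneg_left (hβr j) (sel0 a j)
    rw [h1, mul_comm m0]
    exact mul_le_mul h2 (hinnC a) (Finset.sum_nonneg fun c _ => inn0 a c) hS
  have hfssum : ∀ a, ∑ p, fs p a ≤ m0 * S := by
    intro a
    calc ∑ p, fs p a ≤ ∑ p : (Σ j, β j), sel a p.1 * m0 := Finset.sum_le_sum fun p _ => fs1 p a
      _ = m0 * ∑ j, sel a j * (Fintype.card (β j) : ℝ) := by
          rw [Fintype.sum_sigma, Finset.mul_sum]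
          refine Finset.sum_congr rfl fun j _ => ?_
          show ∑ _o : β j, sel a j * m0 = _
          rw [Finset.sum_const, Finset.card_univ, nsmul_eq_mul]
          ring
      _ ≤ m0 * S := mul_le_mul_of_nonneg_left (hselS a) (by linarith)
  have hfgs : ∀ a x, ∑ p, fs p a * gs p x ≤ m0 := by
    intro a x
    calc ∑ p, fs p a * gs p x = ∑ j, ∑ o, sel a j * lam a j o * (ind j x * sl j o x) := by
          rw [Fintype.sum_sigma]
          exact Finset.sum_congr rfl fun j _ => Finset.sum_congr rfl fun o _ => hfg _ _ _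
      _ ≤ ∑ j, sel a j * ind j x * m0 := Finset.sum_le_sum fun j _ => hsum a j x
      _ = (∑ j, sel a j * ind j x) * m0 := by rw [Finset.sum_mul]
      _ ≤ 1 * m0 := mul_le_mul_of_nonneg_right (hE1le a x) (by linarith)
      _ = m0 := one_mul _
  have hfg3 : ∀ a x, ∑ q, f3 q a * g1 q x + (∑ q, f3 q a * g2 q x + ∑ q, f3 q a * g3 q x) ≤
      m0 := by
    intro a x
    rw [← Finset.sum_add_distrib, ← Finset.sum_add_distrib]
    calc ∑ q, (f3 q a * g1 q x + (f3 q a * g2 q x + f3 q a * g3 q x))
        ≤ ∑ q : Fin M × C, sel a q.1 * inn a q.2 * ind q.1 x := by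
          refine Finset.sum_le_sum fun q _ => ?_
          have := mul_le_mul_of_nonneg_left (gsum q x) (f30 q a)
          calc f3 q a * g1 q x + (f3 q a * g2 q x + f3 q a * g3 q x)
              = f3 q a * (g1 q x + g2 q x + g3 q x) := by ring
            _ ≤ f3 q a * ind q.1 x := this
      _ = (∑ j, sel a j * ind j x) * ∑ c, inn a c := by
          rw [Fintype.sum_prod_type, Finset.sum_mul_sum]
          exact Finset.sum_congr rfl fun j _ => Finset.sum_congr rfl fun c _ => by ring
      _ ≤ 1 * m0 := mul_le_mul (hE1le a x) (hinnC a)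
          (Finset.sum_nonneg fun c _ => inn0 a c) zero_le_one
      _ = m0 := one_mul _
  have hfam := hFam X Y ((Σ j, β j) ⊕ ((Fin M × C) ⊕ ((Fin M × C) ⊕ (Fin M × C)))) r
    (Sum.elim fs (Sum.elim f3 (Sum.elim f3 f3))) (Sum.elim Ts (Sum.elim Ta (Sum.elim Tb Tc)))
    (Sum.elim gs (Sum.elim g1 (Sum.elim g2 g3))) m0 ka (4 * m0 * W0) (4 * m0 * S) A hr hm1 hka
    (by positivity) (by nlinarith)
    (by
      rintro (p | q | q | q) a
      · exact fs0 p a
      · exact f30 q a
      · exact f30 q a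
      · exact f30 q a)
    (by
      rintro (p | q | q | q) a
      · refine (fs1 p a).trans ?_
        have := mul_le_mul_of_nonneg_right (sel1 a p.1) (by linarith : 0 ≤ m0)
        linarith
      · exact (f31 q a).trans hm1
      · exact (f31 q a).trans hm1
      · exact (f31 q a).trans hm1)
    (by
      rintro (p | q | q | q) a ha
      · show sel a p.1 * lam a p.1 p.2 * g0 p (xs p) = 0
        rw [selA a _ ha]; ring
      · show sel a q.1 * inn a q.2 = 0
        rw [selA a _ ha]; ring
      · show sel a q.1 * inn a q.2 = 0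
        rw [selA a _ ha]; ring
      · show sel a q.1 * inn a q.2 = 0
        rw [selA a _ ha]; ring)
    (by
      rintro (p | q | q | q) a
      · exact Ts0 p a
      · exact Ta0 q a
      · exact Tb0 q a
      · exact Tc0 q a)
    (by
      rintro (p | q | q | q) x
      · exact gs0 p x
      · exact g1p q x
      · exact g2p q x
      · exact g3p q x)
    (by
      rintro (p | q | q | q) x
      · exact gs1 p x
      · exact g1le q x
      · exact g2le q x
      · exact g3le q x)
    (by
      rintro (p | q | q | q)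
      · exact Ts2 p
      · exact Ta2 q
      · exact Tb2 q
      · exact Tc2 q)
    hWt
    (by
      intro a
      rw [Fintype.sum_sum_type, Fintype.sum_sum_type, Fintype.sum_sum_type]
      show ∑ p, fs p a + (∑ q, f3 q a + (∑ q, f3 q a + ∑ q, f3 q a)) ≤ _
      have := hf3sum a
      have := hfssum a
      linarith)
    (by
      intro a x
      rw [Fintype.sum_sum_type, Fintype.sum_sum_type, Fintype.sum_sum_type]
      show ∑ p, fs p a * gs p x + (∑ q, f3 q a * g1 q x + (∑ q, f3 q a * g2 q x +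
        ∑ q, f3 q a * g3 q x)) ≤ _
      have := hfgs a x
      have := hfg3 a x
      linarith)
  have hAc : (0 : ℝ) < A.card := by exact_mod_cast Finset.card_pos.2 ⟨a0, ha0⟩
  have hXc : (0 : ℝ) < Fintype.card X := by exact_mod_cast Fintype.card_pos_iff.2 ⟨x0⟩
  have hpow : (d' * (A.card * Fintype.card X)) ^ (2 * r) ≤ _ :=
    pow_le_pow_left₀ (by positivity) htot (2 * r)
  have hfin := (mul_le_mul_of_nonneg_right hpow hAc.le).trans hfam
  have hnn : (0 : ℝ) < (A.card : ℝ) ^ (2 * r) * (Fintype.card X : ℝ) ^ r := by positivity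
  refine le_of_mul_le_mul_right ?_ hnn
  have e1 : d' ^ (2 * r) * A.card * (Fintype.card X : ℝ) ^ r *
      ((A.card : ℝ) ^ (2 * r) * (Fintype.card X : ℝ) ^ r) =
      (d' * (A.card * Fintype.card X)) ^ (2 * r) * A.card := by
    rw [mul_pow, mul_pow, two_mul, pow_add (Fintype.card X : ℝ)]
    ring
  have e2 : 4 * m0 ^ 2 * ka * W0 * (24 * m0 ^ 2 * S) ^ r *
      ((A.card : ℝ) ^ (2 * r) * (Fintype.card X : ℝ) ^ r) =
      m0 * ka * (4 * m0 * W0) * ((A.card : ℝ) ^ 2 * Fintype.card X * (6 * m0 * (4 * m0 * S))) ^ r := by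
    have e3 : (A.card : ℝ) ^ 2 * Fintype.card X * (6 * m0 * (4 * m0 * S)) =
        (24 * m0 ^ 2 * S) * ((A.card : ℝ) ^ 2 * Fintype.card X) := by ring
    rw [e3, mul_pow (24 * m0 ^ 2 * S), mul_pow ((A.card : ℝ) ^ 2), ← pow_mul]
    ring
  rw [e1, e2]
  exact hfin


theorem sum_swap {X Y : Type} [Fintype X] {M : ℕ} (A : Finset Y) (J : Y → Finset (Fin M))
    (cell : Fin M → Set X) [∀ j, DecidablePred (· ∈ cell j)] (h : Fin M → Y → X → ℝ) :
    ∑ j, ∑ a ∈ A.filter (fun a => j ∈ J a), ∑ x ∈ univ.filter (fun x => x ∈ cell j), h j a x =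
      ∑ a ∈ A, ∑ x, ∑ j ∈ J a, (if x ∈ cell j then h j a x else 0) := by
  classical
  have h1 : ∀ j, ∑ a ∈ A.filter (fun a => j ∈ J a), ∑ x ∈ univ.filter (fun x => x ∈ cell j),
      h j a x = ∑ a ∈ A, (if j ∈ J a then ∑ x, (if x ∈ cell j then h j a x else 0) else 0) := by
    intro j
    rw [Finset.sum_filter]
    refine Finset.sum_congr rfl fun a _ => ?_
    rw [Finset.sum_filter]
  rw [Finset.sum_congr rfl fun j _ => h1 j, Finset.sum_comm]
  refine Finset.sum_congr rfl fun a _ => ?_
  rw [Finset.sum_ite_mem, Finset.univ_inter, Finset.sum_comm]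

theorem pf_ABS3 (hF : S_FAM) : Pool.Agent.H91.SV.S_ABS3 := by
  classical
  intro X Y C _ _ _ K ka kb Mx θ W r inF sat hr hka hkb hMx hθ hKM hK hT1 hT2 hpsd M A J cell q o
    sl lam G L lam0 ls de S T F hde hS hT hFF hcov hdis hsl hlam hG hL hlam0 hls1 hls0 heq hSz
    hTz hW hθW
  have hW0 : 0 ≤ W := le_trans (Finset.sum_nonneg fun j _ => by positivity) hW
  rcases A.eq_empty_or_nonempty with hA | ⟨a0, ha0⟩
  · right
    have : ((A.card : ℕ) : ℝ) = 0 := by rw [hA]; simp
    rw [this, mul_zero, zero_mul]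
    positivity
  rcases isEmpty_or_nonempty X with hX | hX
  · right
    have : ((Fintype.card X : ℕ) : ℝ) = 0 := by simp
    rw [this, zero_pow (by omega), mul_zero]
    positivity
  obtain ⟨x0⟩ := hX
  obtain ⟨j0, hj0, hx0⟩ := hcov a0 ha0 x0
  have hAc : (0 : ℝ) < A.card := by exact_mod_cast Finset.card_pos.2 ⟨a0, ha0⟩
  have hXc : (0 : ℝ) < Fintype.card X := by exact_mod_cast Fintype.card_pos_iff.2 ⟨x0⟩
  obtain ⟨m0, hm0⟩ : ∃ m0 : ℝ, m0 = Fintype.card C := ⟨_, rfl⟩
  rw [← hm0]
  have hη : de / (4 * Mx) ≤ de / 4 := by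
    apply div_le_div_of_nonneg_left hde.le (by norm_num)
    linarith
  -- the traces
  have htr0 : ∀ a, ∀ j, ∀ x ∈ cell j, 0 ≤ (L a j * G j x).trace := fun a j x hx =>
    Pool.Agent.H49.SDP.trace_mul_nonneg (hL a j) (hG j x hx)
  have htr1 : ∀ a ∈ A, ∀ j ∈ J a, ∀ x ∈ cell j, (L a j * G j x).trace + 3 / 4 * de ≤ m0 := by
    intro a ha j hj x hx
    have h1 := (abs_le.1 (heq a ha j hj x hx)).1
    have h2 : ∑ c ∈ F a, ls j c x ≤ m0 := by
      calc ∑ c ∈ F a, ls j c x ≤ ∑ c ∈ F a, (1 : ℝ) :=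
            Finset.sum_le_sum fun c _ => (le_abs_self _).trans (hls1 j c x hx)
        _ = (F a).card := by simp
        _ ≤ m0 := by rw [hm0]; exact_mod_cast Finset.card_le_univ _
    have h3 := hlam0 a j
    have h4 : 0 ≤ ∑ i, lam a j i * sl j i x :=
      Finset.sum_nonneg fun i _ => mul_nonneg (hlam _ _ _) (hsl _ _ _ hx)
    linarith
  have hdm : 3 / 4 * de ≤ m0 := by
    have h1 := htr1 a0 ha0 j0 hj0 x0 hx0
    have h2 := htr0 a0 j0 x0 hx0
    linarith
  have hm0p : 0 < m0 := by linarith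
  -- the psd part
  obtain ⟨G', hG'⟩ : ∃ G' : (j : Fin M) → X → Matrix (Fin (o j)) (Fin (o j)) ℝ,
      ∀ j x, G' j x = if x ∈ cell j then G j x else 0 := ⟨_, fun _ _ => rfl⟩
  have hG'1 : ∀ j x, (G' j x).PosSemidef := by
    intro j x
    rw [hG']
    split_ifs with h
    · exact hG j x h
    · exact Matrix.PosSemidef.zero
  obtain ⟨T', hT'⟩ : ∃ T' : Fin M → ℝ, ∀ j, T' j = ∑ a ∈ A.filter (fun a => j ∈ J a),
      ∑ x ∈ univ.filter (fun x => x ∈ cell j), (L a j * G' j x).trace := ⟨_, fun _ => rfl⟩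
  obtain ⟨E', hE'⟩ : ∃ E' : Fin M → ℝ, ∀ j, E' j = kb * m0 * (o j) *
      ((A.filter (fun a => j ∈ J a)).card + θ) * Fintype.card X := ⟨_, fun _ => rfl⟩
  have hE'0 : ∀ j, 0 ≤ E' j := fun j => by rw [hE']; positivity
  have hT'0 : ∀ j, 0 ≤ T' j := fun j => by
    rw [hT']
    refine Finset.sum_nonneg fun a _ => Finset.sum_nonneg fun x _ => ?_
    exact Pool.Agent.H49.SDP.trace_mul_nonneg (hL a j) (hG'1 j x)
  have hoW : ∀ j, (o j : ℝ) ≤ W := by
    intro j
    refine le_trans ?_ hW
    refine le_trans ?_ (Finset.single_le_sum (f := fun j => ((q j : ℝ) + o j + 1))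
      (fun j _ => by positivity) (Finset.mem_univ j))
    have : (0 : ℝ) ≤ q j := by positivity
    show (o j : ℝ) ≤ (q j : ℝ) + o j + 1
    linarith
  have hone : ∀ j, -(Mx * (2 * Real.sqrt (T' j * E' j) + E' j)) ≤
      ∑ a ∈ A.filter (fun a => j ∈ J a), ∑ x ∈ univ.filter (fun x => x ∈ cell j),
        K a x * (L a j * G' j x).trace := by
    intro j
    have h1 := hpsd (o j) (fun a => L a j) (G' j) (hoW j) (fun a => hL a j) (hG'1 j)
      (A.filter (fun a => j ∈ J a)) (univ.filter (fun x => x ∈ cell j)) m0 hm0p (by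
        intro a ha x hx
        have h2 := Finset.mem_filter.1 ha
        have h3 := (Finset.mem_filter.1 hx).2
        rw [hG', if_pos h3]
        have h4 := htr1 a h2.1 j h2.2 x h3
        linarith)
    rw [hT', hE']
    exact h1
  have hunique : ∀ a ∈ A, ∀ x, ∀ v : Fin M → ℝ, (∀ j ∈ J a, x ∈ cell j → v j ≤ m0) →
      ∑ j ∈ J a, (if x ∈ cell j then v j else 0) ≤ m0 := by
    intro a ha x v hv
    obtain ⟨j1, hj1, hx1⟩ := hcov a ha x
    rw [Finset.sum_eq_single j1]
    · rw [if_pos hx1]
      exact hv j1 hj1 hx1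
    · intro j hj hne
      rw [if_neg]
      intro hx
      exact Set.disjoint_left.1 (hdis a ha j hj j1 hj1 hne) hx hx1
    · intro h
      exact absurd hj1 h
  have hTs : ∑ j, T' j ≤ m0 * (A.card * Fintype.card X) := by
    rw [Finset.sum_congr rfl fun j _ => hT' j,
      sum_swap A J cell (fun j a x => (L a j * G' j x).trace)]
    calc ∑ a ∈ A, ∑ x, ∑ j ∈ J a, (if x ∈ cell j then (L a j * G' j x).trace else 0)
        ≤ ∑ a ∈ A, ∑ x : X, m0 := by
          refine Finset.sum_le_sum fun a ha => Finset.sum_le_sum fun x _ => ?_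
          refine hunique a ha x _ fun j hj hx => ?_
          rw [hG', if_pos hx]
          have h4 := htr1 a ha j hj x hx
          linarith
      _ = m0 * (A.card * Fintype.card X) := by
          rw [Finset.sum_const, Finset.sum_const, Finset.card_univ, nsmul_eq_mul, nsmul_eq_mul]
          ring
  have hEs : ∑ j, E' j ≤ m0 * (A.card * Fintype.card X) * (kb * (T + 1)) := by
    have h1 : ∑ j, (o j : ℝ) * ((A.filter (fun a => j ∈ J a)).card : ℝ) ≤ A.card * T := by
      have h2 : ∀ j, (o j : ℝ) * ((A.filter (fun a => j ∈ J a)).card : ℝ) =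
          ∑ a ∈ A, (if j ∈ J a then (o j : ℝ) else 0) := by
        intro j
        rw [← Finset.sum_filter, Finset.sum_const, nsmul_eq_mul]
        ring
      rw [Finset.sum_congr rfl fun j _ => h2 j, Finset.sum_comm]
      calc ∑ a ∈ A, ∑ j, (if j ∈ J a then (o j : ℝ) else 0) ≤ ∑ a ∈ A, T := by
            refine Finset.sum_le_sum fun a ha => ?_
            rw [Finset.sum_ite_mem, Finset.univ_inter]
            exact hTz a ha
        _ = A.card * T := by rw [Finset.sum_const, nsmul_eq_mul]
    have h2 : θ * ∑ j, (o j : ℝ) ≤ A.card := by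
      refine le_trans (mul_le_mul_of_nonneg_left ?_ hθ.le) hθW
      refine le_trans (Finset.sum_le_sum fun j _ => ?_) hW
      have : (0 : ℝ) ≤ q j := by positivity
      linarith
    calc ∑ j, E' j = kb * m0 * Fintype.card X *
          (∑ j, (o j : ℝ) * ((A.filter (fun a => j ∈ J a)).card : ℝ) + θ * ∑ j, (o j : ℝ)) := by
          rw [Finset.sum_congr rfl fun j _ => hE' j, Finset.mul_sum (a := θ),
            ← Finset.sum_add_distrib, Finset.mul_sum]
          exact Finset.sum_congr rfl fun j _ => by ring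
      _ ≤ kb * m0 * Fintype.card X * (A.card * T + A.card) :=
          mul_le_mul_of_nonneg_left (add_le_add h1 h2) (by positivity)
      _ = m0 * (A.card * Fintype.card X) * (kb * (T + 1)) := by ring
  obtain ⟨u, hu⟩ : ∃ u : ℝ, u = Real.sqrt (kb * (T + 1)) := ⟨_, rfl⟩
  have hu0 : 0 ≤ u := by rw [hu]; exact Real.sqrt_nonneg _
  have hu2 : u ^ 2 = kb * (T + 1) := by rw [hu]; exact Real.sq_sqrt (by positivity)
  obtain ⟨Z, hZ⟩ : ∃ Z : ℝ, Z = m0 * (A.card * Fintype.card X) := ⟨_, rfl⟩
  have hZ0 : 0 < Z := by rw [hZ]; positivity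
  have hcs : ∑ j, (2 * Real.sqrt (T' j * E' j) + E' j) ≤ Z * (2 * u + u ^ 2) := by
    have h1 : ∑ j, Real.sqrt (T' j * E' j) ≤ Z * u := by
      calc ∑ j, Real.sqrt (T' j * E' j) = ∑ j, Real.sqrt (T' j) * Real.sqrt (E' j) :=
            Finset.sum_congr rfl fun j _ => Real.sqrt_mul (hT'0 j) _
        _ ≤ Real.sqrt (∑ j, T' j) * Real.sqrt (∑ j, E' j) :=
            Real.sum_sqrt_mul_sqrt_le univ hT'0 hE'0
        _ ≤ Real.sqrt Z * Real.sqrt (Z * u ^ 2) := by
            refine mul_le_mul (Real.sqrt_le_sqrt ?_) (Real.sqrt_le_sqrt ?_)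
              (Real.sqrt_nonneg _) (Real.sqrt_nonneg _)
            · rw [hZ]; exact hTs
            · rw [hZ, hu2]; exact hEs
        _ = Z * u := by
            rw [Real.sqrt_mul hZ0.le, Real.sqrt_sq hu0, ← mul_assoc, Real.mul_self_sqrt hZ0.le]
    rw [Finset.sum_add_distrib, ← Finset.mul_sum]
    have h2 : ∑ j, E' j ≤ Z * u ^ 2 := by rw [hZ, hu2]; exact hEs
    linarith
  obtain ⟨P, hPd⟩ : ∃ P : ℝ, P = ∑ a ∈ A, ∑ x, ∑ j ∈ J a,
      (if x ∈ cell j then (L a j * G j x).trace else 0) * K a x := ⟨_, rfl⟩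
  have hP1 : -(Mx * (Z * (2 * u + u ^ 2))) ≤ P := by
    have h1 : P = ∑ j, ∑ a ∈ A.filter (fun a => j ∈ J a),
        ∑ x ∈ univ.filter (fun x => x ∈ cell j), K a x * (L a j * G' j x).trace := by
      rw [sum_swap A J cell (fun j a x => K a x * (L a j * G' j x).trace), hPd]
      refine Finset.sum_congr rfl fun a _ => Finset.sum_congr rfl fun x _ =>
        Finset.sum_congr rfl fun j _ => ?_
      rw [hG']
      split_ifs <;> ring
    rw [h1]
    refine le_trans ?_ (Finset.sum_le_sum fun j _ => hone j)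
    rw [Finset.sum_neg_distrib, ← Finset.mul_sum]
    exact neg_le_neg (mul_le_mul_of_nonneg_left hcs (by linarith))
  rcases le_total (3 / 8 * de) (Mx * m0 * (2 * u + u ^ 2)) with hc | hc
  · left
    have hd8 : de ≤ 8 * Mx * m0 * u := by
      rcases le_total u 1 with h1 | h1
      · have h2 : u ^ 2 ≤ u := by nlinarith
        have h3 : Mx * m0 * (2 * u + u ^ 2) ≤ Mx * m0 * (3 * u) :=
          mul_le_mul_of_nonneg_left (by linarith) (by positivity)
        linarith
      · have h2 : m0 * 1 ≤ m0 * (Mx * u) := by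
          refine mul_le_mul_of_nonneg_left ?_ hm0p.le
          nlinarith
        have h3 : 0 ≤ m0 * (Mx * u) := by positivity
        linarith
    calc de ^ 2 ≤ (8 * Mx * m0 * u) ^ 2 := pow_le_pow_left₀ hde.le hd8 2
      _ = 64 * Mx ^ 2 * m0 ^ 2 * u ^ 2 := by ring
      _ = 64 * Mx ^ 2 * m0 ^ 2 * kb * (T + 1) := by rw [hu2]; ring
  · right
    have h := ab_gen hF X Y C K ka Mx r inF sat hr hka hMx hKM hK hT1 hT2 M A J cell
      (fun j => Option (Fin (q j))) (fun j => by simp)
      (fun j o x => match o with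
        | none => 1
        | some i => sl j i x)
      (fun a j o => match o with
        | none => lam0 a j
        | some i => lam a j i) (fun a j x => (L a j * G j x).trace) ls de (3 / 8 * de) S F hde
      (by positivity) hS hFF hcov hdis
      (by
        intro j o x hx
        cases o with
        | none => exact zero_le_one
        | some i => exact hsl j i x hx)
      (by
        intro a j o
        cases o with
        | none => exact hlam0 a j
        | some i => exact hlam a j i) hls1 hls0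
      (fun a _ j _ x hx => htr0 a j x hx)
      (by
        intro a ha j hj x hx
        rw [Fintype.sum_option]
        simpa using heq a ha j hj x hx)
      (by
        rw [← hPd]
        have h1 : Mx * (Z * (2 * u + u ^ 2)) ≤ 3 / 8 * de * (A.card * Fintype.card X) := by
          calc Mx * (Z * (2 * u + u ^ 2)) =
              Mx * m0 * (2 * u + u ^ 2) * (A.card * Fintype.card X) := by rw [hZ]; ring
            _ ≤ 3 / 8 * de * (A.card * Fintype.card X) :=
                mul_le_mul_of_nonneg_right hc (by positivity)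
        linarith)
      (by
        intro a ha
        refine le_trans (le_of_eq ?_) (hSz a ha)
        exact Finset.sum_congr rfl fun j _ => by simp)
    have hWW : ∑ j : Fin M, (Fintype.card (Option (Fin (q j))) : ℝ) ≤ W := by
      refine le_trans (Finset.sum_le_sum fun j _ => ?_) hW
      have : (0 : ℝ) ≤ o j := by positivity
      simp only [Fintype.card_option, Fintype.card_fin, Nat.cast_add, Nat.cast_one]
      linarith
    rw [← hm0] at h
    have h64 : (0 : ℝ) ≤ (64 / 9 : ℝ) ^ r := by positivity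
    have h2 := mul_le_mul_of_nonneg_left h h64
    have e1 : (64 / 9 : ℝ) ^ r * ((3 / 8 * de) ^ (2 * r) * A.card * (Fintype.card X : ℝ) ^ r) =
        de ^ (2 * r) * A.card * (Fintype.card X : ℝ) ^ r := by
      have e2 : (64 / 9 : ℝ) ^ r * (3 / 8 : ℝ) ^ (2 * r) = 1 := by
        rw [pow_mul, ← mul_pow]
        norm_num
      rw [mul_pow]
      calc (64 / 9 : ℝ) ^ r * ((3 / 8 : ℝ) ^ (2 * r) * de ^ (2 * r) * A.card *
            (Fintype.card X : ℝ) ^ r) = ((64 / 9 : ℝ) ^ r * (3 / 8 : ℝ) ^ (2 * r)) *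
            (de ^ (2 * r) * A.card * (Fintype.card X : ℝ) ^ r) := by ring
        _ = _ := by rw [e2, one_mul]
    rw [e1] at h2
    refine h2.trans ?_
    calc (64 / 9 : ℝ) ^ r * (4 * m0 ^ 2 * ka * (∑ j : Fin M,
          (Fintype.card (Option (Fin (q j))) : ℝ)) * (24 * m0 ^ 2 * S) ^ r)
        ≤ (64 / 9 : ℝ) ^ r * (4 * m0 ^ 2 * ka * W * (24 * m0 ^ 2 * S) ^ r) := by
          refine mul_le_mul_of_nonneg_left ?_ h64
          refine mul_le_mul_of_nonneg_right ?_ (by positivity)
          exact mul_le_mul_of_nonneg_left hWW (by positivity)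
      _ = 4 * m0 ^ 2 * ka * W * (64 / 9 * (24 * m0 ^ 2 * S)) ^ r := by
          rw [mul_pow (64 / 9)]
          ring
      _ ≤ 4 * m0 ^ 2 * ka * W * (171 * m0 ^ 2 * S) ^ r := by
          refine mul_le_mul_of_nonneg_left ?_ (by positivity)
          refine pow_le_pow_left₀ (by positivity) ?_ r
          have : 0 ≤ m0 ^ 2 * S := by positivity
          linarith

end Pool.Agent.H21.SV
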